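import Pool.Agent.R502.TW.Thm
import Pool.Agent.Helper923.PNT

/-!
Multiples of primes: positive proportion and almost all primes.
-/

set_option autoImplicit false

open Finset Filter Topology

namespace Pool.Agent.R502.TW

open Pool.Agent.H361R2.PP
open Pool.Agent.R526.AA
open Pool.Agent.R502.AQ

theorem ratio {A a : ℕ} (ha : 1 ≤ a) (haA : a ≤ A) : ∃ c : ℕ, 0 < c ∧ A.factorial ^ 2 = a * c ∧
    ∀ r : ℕ, r.Prime → r ∣ A.factorial ^ 2 → r ∣ c := by
  obtain ⟨d, hd⟩ := Nat.dvd_factorial (by omega : 0 < a) haA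
  have hA := Nat.factorial_pos A
  have hd0 : 0 < d := by
    rcases Nat.eq_zero_or_pos d with h | h
    · rw [h, mul_zero] at hd
      omega
    · exact h
  refine ⟨d * A.factorial, by positivity, ?_, ?_⟩
  · rw [sq]
    nth_rewrite 1 [hd]
    ring
  · intro r hr h
    exact (hr.dvd_of_dvd_pow h).mul_left d

theorem composite_of_G {X A l p i m a c : ℕ} (hpX : X + A < p) (haA : a ≤ A)
    (hc : A.factorial ^ 2 = a * c) (hcr : ∀ r : ℕ, r.Prime → r ∣ A.factorial ^ 2 → r ∣ c)
    (hG : G X (A.factorial ^ 2) l p i) (h1 : i * l < m * c) (h2 : m * c ≤ (i + 1) * l) :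
    ¬ (m * p + a).Prime ∧ ¬ (m * p - a).Prime := by
  have hm : 1 ≤ m := by
    rcases Nat.eq_zero_or_pos m with h | h
    · rw [h, zero_mul] at h1
      omega
    · exact h
  have hmp : p ≤ m * p := Nat.le_mul_of_pos_left _ hm
  obtain ⟨⟨r, hr1, hr2, hr3, hr4⟩, ⟨r', hr1', hr2', hr3', hr4'⟩⟩ :=
    hG (m * c) h1 h2 (fun r hr hrM => (hcr r hr hrM).mul_left m)
  constructor
  · have h5 : A.factorial ^ 2 + m * c * p = c * (m * p + a) := by
      rw [hc]
      ring
    rw [h5] at hr4
    have h6 : r ∣ m * p + a := by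
      rcases (hr1.dvd_mul).1 hr4 with h7 | h7
      · exact absurd (hc ▸ h7.mul_left a) hr3
      · exact h7
    intro hp
    have := (Nat.prime_dvd_prime_iff_eq hr1 hp).1 h6
    omega
  · have h5 : c * (m * p) ≡ c * a [MOD r'] := by
      have e1 : c * (m * p) = m * c * p := by ring
      have e2 : c * a = A.factorial ^ 2 := by rw [hc]; ring
      rw [e1, e2]
      exact hr4'
    have hco : Nat.Coprime r' c := by
      rw [Nat.Prime.coprime_iff_not_dvd hr1']
      intro h7
      exact hr3' (hc ▸ h7.mul_left a)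
    have h6 : m * p ≡ a [MOD r'] := Nat.ModEq.cancel_left_of_coprime hco h5
    have h7 : r' ∣ m * p - a := (Nat.modEq_iff_dvd' (by omega)).1 h6.symm
    intro hp
    have := (Nat.prime_dvd_prime_iff_eq hr1' hp).1 h7
    omega

open Classical in
theorem groups' {α : Type} (Q : α → ℕ → Prop) (n : α) (k m K : ℕ) (hm : m * k ≤ K) :
    ((range m).filter (fun j => ∃ i < k, Q n (j * k + i))).card ≤
      ((range K).filter (fun i => Q n i)).card := by
  choose! f hf using (fun j (hj : ∃ i < k, Q n (j * k + i)) => hj)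
  apply card_le_card_of_injOn (fun j => j * k + f j)
  · intro j hj
    rw [mem_coe, mem_filter, mem_range] at hj
    obtain ⟨h1, h2⟩ := hf j hj.2
    rw [mem_coe, mem_filter, mem_range]
    refine ⟨?_, h2⟩
    have h3 : (j + 1) * k ≤ m * k := Nat.mul_le_mul_right _ hj.1
    have h4 : (j + 1) * k = j * k + k := by ring
    change j * k + f j < K
    omega
  · intro a ha b hb hab
    rw [mem_coe, mem_filter] at ha hb
    obtain ⟨h1, -⟩ := hf a ha.2
    obtain ⟨h2, -⟩ := hf b hb.2
    simp only at hab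
    rcases Nat.lt_trichotomy a b with h | h | h
    · have h3 : (a + 1) * k ≤ b * k := Nat.mul_le_mul_right _ h
      have h4 : (a + 1) * k = a * k + k := by ring
      omega
    · exact h
    · have h3 : (b + 1) * k ≤ a * k := Nat.mul_le_mul_right _ h
      have h4 : (b + 1) * k = b * k + k := by ring
      omega

open Classical in
theorem avg {α : Type} (S : Finset α) (Q : α → ℕ → Prop) (k m K : ℕ) (hm0 : 0 < m)
    (hm : m * k ≤ K) (c e : ℝ) (hc : c * K ≤ m / 2)
    (h : ∀ j < m, ((S.filter (fun n => ¬ ∃ i < k, Q n (j * k + i))).card : ℝ) ≤ e) :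
    ((S.filter (fun n => (((range K).filter (fun i => Q n i)).card : ℝ) < c * K)).card : ℝ) ≤
      2 * e := by
  set Bd := S.filter (fun n => (((range K).filter (fun i => Q n i)).card : ℝ) < c * K) with hBd
  have hm0' : (0 : ℝ) < m := by exact_mod_cast hm0
  have h1 : ∀ n ∈ Bd, (m : ℝ) / 2 ≤
      (((range m).filter (fun j => ¬ ∃ i < k, Q n (j * k + i))).card : ℝ) := by
    intro n hn
    have h2 := (mem_filter.1 hn).2
    have h3 := groups' Q n k m K hm
    have h4 := card_filter_add_card_filter_not (s := range m)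
      (fun j => ∃ i < k, Q n (j * k + i))
    rw [card_range] at h4
    have h5 : (((range m).filter (fun j => ∃ i < k, Q n (j * k + i))).card : ℝ) +
        (((range m).filter (fun j => ¬ ∃ i < k, Q n (j * k + i))).card : ℝ) = m := by
      exact_mod_cast h4
    have h6 : (((range m).filter (fun j => ∃ i < k, Q n (j * k + i))).card : ℝ) ≤
        (((range K).filter (fun i => Q n i)).card : ℝ) := by exact_mod_cast h3
    linarith
  have h2 : (Bd.card : ℝ) * (m / 2) ≤ ∑ n ∈ Bd,
      (((range m).filter (fun j => ¬ ∃ i < k, Q n (j * k + i))).card : ℝ) := by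
    rw [← nsmul_eq_mul, ← sum_const]
    exact sum_le_sum h1
  have h3 : ∑ n ∈ Bd,
      (((range m).filter (fun j => ¬ ∃ i < k, Q n (j * k + i))).card : ℝ) ≤
      ∑ j ∈ range m, ((S.filter (fun n => ¬ ∃ i < k, Q n (j * k + i))).card : ℝ) := by
    calc ∑ n ∈ Bd, (((range m).filter (fun j => ¬ ∃ i < k, Q n (j * k + i))).card : ℝ) ≤
        ∑ n ∈ S, (((range m).filter (fun j => ¬ ∃ i < k, Q n (j * k + i))).card : ℝ) :=
          sum_le_sum_of_subset_of_nonneg (filter_subset _ _) (fun _ _ _ => Nat.cast_nonneg _)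
      _ = _ := by
          simp only [card_filter, Nat.cast_sum]
          rw [sum_comm]
  have h5 : (Bd.card : ℝ) * (m / 2) ≤ m * e := by
    refine (h2.trans h3).trans ?_
    calc _ ≤ ∑ j ∈ range m, e := sum_le_sum fun j hj => h j (mem_range.1 hj)
      _ = m * e := by rw [sum_const, card_range, nsmul_eq_mul]
  have h6 : (Bd.card : ℝ) * (m / 2) ≤ (2 * e) * (m / 2) := by linarith
  exact le_of_mul_le_mul_right h6 (by positivity)

/-- sizes -/
theorem sizes : ∃ X₀ : ℕ, ∀ X : ℕ, X₀ ≤ X →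
    (X : ℝ) / Real.log X / 2 ≤ Pr X ∧ Pr X ≤ 4 * Nat.primeCounting X ∧
    (Nat.primeCounting X : ℝ) ≤ 2 * (X / Real.log X) := by
  have hpi := Pool.Agent.Helper923.PNT.pi_tendsto
  have t1 : Tendsto (fun X : ℕ => (Nat.primeCounting X : ℝ) * Real.log X / X) atTop (𝓝 1) := by
    have := hpi.comp tendsto_natCast_atTop_atTop
    refine this.congr fun X => ?_
    simp only [Function.comp_apply, Nat.floor_natCast]
  obtain ⟨X1, h1⟩ := eventually_atTop.1 ((t1.eventually_const_le
    (show (1 / 2 : ℝ) < 1 by norm_num)).and (t1.eventually_le_const (show (1 : ℝ) < 2 by norm_num)))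
  obtain ⟨X2, h2⟩ := Pool.Agent.H325R2.pnt (1 / 2) (by norm_num)
  refine ⟨X1 + X2 + 2, fun X hX => ?_⟩
  obtain ⟨k1, k2⟩ := h1 X (by omega)
  have k3 := abs_le.1 (h2 X (by omega))
  have hX2 : (2 : ℝ) ≤ X := by exact_mod_cast (by omega : 2 ≤ X)
  have hX0 : (0 : ℝ) < X := by linarith
  have hL : 0 < Real.log X := Real.log_pos (by linarith)
  rw [div_le_iff₀ hX0] at k2
  rw [le_div_iff₀ hX0] at k1
  refine ⟨?_, ?_, ?_⟩
  · rw [div_div, div_le_iff₀ (by positivity)]
    linarith [k3.1]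
  · have h3 : Pr X * Real.log X ≤ (4 * Nat.primeCounting X) * Real.log X := by
      linarith [k3.2]
    exact le_of_mul_le_mul_right h3 hL
  · rw [mul_div_assoc', le_div_iff₀ hL]
    linarith

theorem few_small (X A : ℕ) :
    (((SQ X).filter (fun n => ¬ X + A < n + 1)).card : ℝ) ≤ A := by
  have h1 : (SQ X).filter (fun n => ¬ X + A < n + 1) ⊆ Ico X (X + A) := by
    intro n hn
    rw [mem_filter] at hn
    have h2 := hn.1
    unfold SQ at h2
    rw [mem_filter, mem_Ico] at h2
    rw [mem_Ico]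
    omega
  have h2 := card_le_card h1
  rw [Nat.card_Ico] at h2
  exact_mod_cast (by omega : ((SQ X).filter (fun n => ¬ X + A < n + 1)).card ≤ A)

open Classical in
/-- positive proportion, dyadic -/
theorem pos_dyadic (lam : ℝ) (hlam : 0 < lam) (A : ℕ) :
    ∃ c : ℝ, 0 < c ∧ ∃ X₀ : ℕ, ∀ X : ℕ, X₀ ≤ X →
      c * Pr X ≤ (((SQ X).filter (fun n => ∀ a m : ℕ, 1 ≤ a → a ≤ A → 1 ≤ m →
        (m : ℝ) ≤ a * (lam * Real.log (2 * X)) →
          ¬ (m * (n + 1) + a).Prime ∧ ¬ (m * (n + 1) - a).Prime)).card : ℝ) := by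
  obtain ⟨M, hM⟩ : ∃ M, M = A.factorial ^ 2 := ⟨_, rfl⟩
  have hM0 : 0 < M := by rw [hM]; have := Nat.factorial_pos A; positivity
  have hMr : (0 : ℝ) < M := by exact_mod_cast hM0
  obtain ⟨C, hC, hk⟩ := basicTw (2 * (lam * M) + 1) 1 (by positivity) one_pos le_rfl
  obtain ⟨X1, hb⟩ := hk 1 one_pos 1 M hM0
  obtain ⟨X2, hs⟩ := sizes
  obtain ⟨c, hc⟩ : ∃ c : ℝ, c = (1 - 1 / 4) ^ 2 / (1 + 1 / 8 + C / (1 : ℕ)) := ⟨_, rfl⟩
  have hc0 : 0 < c := by rw [hc]; positivity
  have t1 : Tendsto (fun X : ℕ => (X : ℝ) / Real.log X) atTop atTop := by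
    have h := (Real.tendsto_pow_log_div_mul_add_atTop 1 0 1 one_ne_zero)
    have h2 : Tendsto (fun x : ℝ => x / Real.log x) atTop atTop := by
      have h3 := (isLittleO_log_rpow_atTop (show (0 : ℝ) < 1 / 2 by norm_num)).def
        (show (0 : ℝ) < 1 by norm_num)
      refine tendsto_atTop_mono' atTop ?_ (tendsto_rpow_atTop (show (0 : ℝ) < 1 / 2 by norm_num))
      filter_upwards [h3, eventually_gt_atTop (1 : ℝ)] with x hx hx1
      have hl : 0 < Real.log x := Real.log_pos hx1
      rw [Real.norm_eq_abs, abs_of_pos hl, Real.norm_eq_abs,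
        abs_of_nonneg (Real.rpow_nonneg (by linarith) _), one_mul] at hx
      rw [le_div_iff₀ hl]
      calc x ^ (1 / 2 : ℝ) * Real.log x ≤ x ^ (1 / 2 : ℝ) * x ^ (1 / 2 : ℝ) :=
            mul_le_mul_of_nonneg_left hx (Real.rpow_nonneg (by linarith) _)
        _ = x := by
            rw [← Real.rpow_add (by linarith)]
            norm_num
    exact h2.comp tendsto_natCast_atTop_atTop
  obtain ⟨X3, h3⟩ := eventually_atTop.1 (t1.eventually_ge_atTop (4 * A / c))
  refine ⟨c / 2, by positivity, X1 + X2 + X3 + 16, fun X hX => ?_⟩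
  have hX16 : (16 : ℝ) ≤ X := by exact_mod_cast (by omega : 16 ≤ X)
  have hXr : (0 : ℝ) < X := by linarith
  have hL : 1 ≤ Real.log X := by
    rw [Real.le_log_iff_exp_le hXr]
    have := Real.exp_one_lt_d9
    linarith
  have hL2 : Real.log (2 * X) ≤ 2 * Real.log X := by
    calc Real.log (2 * X) ≤ Real.log ((X : ℝ) * X) := Real.log_le_log (by positivity) (by nlinarith)
      _ = 2 * Real.log X := by rw [Real.log_mul hXr.ne' hXr.ne']; ring
  obtain ⟨l, hl⟩ : ∃ l : ℕ, l = ⌈lam * M * Real.log (2 * X)⌉₊ := ⟨_, rfl⟩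
  have hl1 : lam * M * Real.log (2 * X) ≤ l := by rw [hl]; exact Nat.le_ceil _
  have hL0 : 0 ≤ Real.log (2 * X) := Real.log_nonneg (by linarith)
  have hl2 : (l : ℝ) ≤ (2 * (lam * M) + 1) * Real.log X := by
    have h4 := Nat.ceil_lt_add_one (show 0 ≤ lam * M * Real.log (2 * X) by positivity)
    rw [← hl] at h4
    have h5 : lam * M * Real.log (2 * X) ≤ lam * M * (2 * Real.log X) :=
      mul_le_mul_of_nonneg_left hL2 (by positivity)
    linarith
  have h4'' := hb X (by omega) l 0 hl2 (by omega)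
  rw [← hc] at h4''
  have h4 : c * Pr X ≤ (((SQ X).filter (fun n => G X M l (n + 1) 0)).card : ℝ) := by
    refine h4''.trans ?_
    apply Nat.cast_le.2
    apply card_le_card
    intro n hn
    rw [mem_filter] at hn ⊢
    refine ⟨hn.1, ?_⟩
    obtain ⟨i, hi, hG⟩ := hn.2
    have hi0 : 0 + i = 0 := by omega
    rwa [hi0] at hG
  have h5 := few_small X A
  have h6 : (A : ℝ) ≤ c / 2 * Pr X := by
    have h7 := (hs X (by omega)).1
    have h8 := h3 X (by omega)
    rw [div_le_iff₀ hc0] at h8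
    have h9 : c * ((X : ℝ) / Real.log X / 2) ≤ c * Pr X := mul_le_mul_of_nonneg_left h7 hc0.le
    linarith
  have h7 : ((SQ X).filter (fun n => G X M l (n + 1) 0)) ⊆
      ((SQ X).filter (fun n => ∀ a m : ℕ, 1 ≤ a → a ≤ A → 1 ≤ m →
        (m : ℝ) ≤ a * (lam * Real.log (2 * X)) →
          ¬ (m * (n + 1) + a).Prime ∧ ¬ (m * (n + 1) - a).Prime)) ∪
      ((SQ X).filter (fun n => ¬ X + A < n + 1)) := by
    intro n hn
    rw [mem_filter] at hn
    rw [mem_union, mem_filter, mem_filter]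
    by_cases hXA : X + A < n + 1
    · left
      refine ⟨hn.1, ?_⟩
      have hG := hn.2
      intro a m ha1 haA hm1 hm2
      obtain ⟨e, he0, he1, he2⟩ := ratio ha1 haA
      rw [hM] at hG
      refine composite_of_G hXA haA he1 he2 hG ?_ ?_
      · rw [zero_mul]
        positivity
      · rw [zero_add, one_mul]
        have h8 : ((m * e : ℕ) : ℝ) ≤ l := by
          refine le_trans ?_ hl1
          have h9 : (M : ℝ) = a * e := by
            rw [hM]
            exact_mod_cast he1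
          push_cast
          rw [h9]
          calc (m : ℝ) * e ≤ (a * (lam * Real.log (2 * X))) * e :=
                mul_le_mul_of_nonneg_right hm2 (Nat.cast_nonneg _)
            _ = _ := by ring
        exact_mod_cast h8
    · right
      exact ⟨hn.1, hXA⟩
  have h8 : (((SQ X).filter (fun n => G X M l (n + 1) 0)).card : ℝ) ≤
      (((SQ X).filter (fun n => ∀ a m : ℕ, 1 ≤ a → a ≤ A → 1 ≤ m →
        (m : ℝ) ≤ a * (lam * Real.log (2 * X)) →
          ¬ (m * (n + 1) + a).Prime ∧ ¬ (m * (n + 1) - a).Prime)).card : ℝ) +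
      (((SQ X).filter (fun n => ¬ X + A < n + 1)).card : ℝ) := by
    exact_mod_cast (card_le_card h7).trans (card_union_le _ _)
  linarith

open Classical in
/-- almost all primes, dyadic -/
theorem almost_dyadic (lam ε : ℝ) (hlam : 0 < lam) (hε : 0 < ε) (A : ℕ) :
    ∃ c : ℝ, 0 < c ∧ ∃ K₀ : ℕ, ∀ K : ℕ, K₀ ≤ K → ∃ X₀ : ℕ, ∀ X : ℕ, X₀ ≤ X →
      ∀ L : ℕ, (L : ℝ) ≤ lam * Real.log X →
      (((SQ X).filter (fun n => (((range K).filter (fun i => ∀ a m : ℕ, 1 ≤ a → a ≤ A →
        i * L * a < m → m ≤ (i + 1) * L * a →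
          ¬ (m * (n + 1) + a).Prime ∧ ¬ (m * (n + 1) - a).Prime)).card : ℝ) < c * K)).card : ℝ) ≤
        ε * Pr X := by
  obtain ⟨M, hM⟩ : ∃ M, M = A.factorial ^ 2 := ⟨_, rfl⟩
  have hM0 : 0 < M := by rw [hM]; have := Nat.factorial_pos A; positivity
  have hMr : (0 : ℝ) < M := by exact_mod_cast hM0
  obtain ⟨ε₁, hε₁⟩ : ∃ e : ℝ, e = min ε 1 / 4 := ⟨_, rfl⟩
  have hε₁0 : 0 < ε₁ := by rw [hε₁]; positivity
  have hε₁1 : ε₁ ≤ 1 := by rw [hε₁]; have := min_le_right ε 1; linarith
  obtain ⟨C, hC, hkk⟩ := basicTw (lam * M) ε₁ (by positivity) hε₁0 hε₁1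
  obtain ⟨k, hk⟩ := exists_nat_ge (8 * C / ε₁)
  have hk1 : 0 < k + 1 := Nat.succ_pos k
  have hgood : 1 - ε₁ ≤ (1 - ε₁ / 4) ^ 2 / (1 + ε₁ / 8 + C / ((k + 1 : ℕ) : ℝ)) := by
    apply eps_ineq hε₁0 hε₁1 (by positivity) le_rfl (by positivity)
    rw [div_le_iff₀ (by positivity)]
    rw [div_le_iff₀ hε₁0] at hk
    push_cast
    nlinarith
  have hk0 : (0 : ℝ) < ((k + 1 : ℕ) : ℝ) := by exact_mod_cast hk1
  generalize k + 1 = k' at *
  refine ⟨1 / (4 * k'), by positivity, 2 * k', fun K hK => ?_⟩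
  obtain ⟨X1, hb⟩ := hkk k' hk1 K M hM0
  obtain ⟨X2, hs⟩ := sizes
  have t1 : Tendsto (fun X : ℕ => (X : ℝ) / Real.log X) atTop atTop := by
    have h2 : Tendsto (fun x : ℝ => x / Real.log x) atTop atTop := by
      have h3 := (isLittleO_log_rpow_atTop (show (0 : ℝ) < 1 / 2 by norm_num)).def
        (show (0 : ℝ) < 1 by norm_num)
      refine tendsto_atTop_mono' atTop ?_ (tendsto_rpow_atTop (show (0 : ℝ) < 1 / 2 by norm_num))
      filter_upwards [h3, eventually_gt_atTop (1 : ℝ)] with x hx hx1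
      have hl : 0 < Real.log x := Real.log_pos hx1
      rw [Real.norm_eq_abs, abs_of_pos hl, Real.norm_eq_abs,
        abs_of_nonneg (Real.rpow_nonneg (by linarith) _), one_mul] at hx
      rw [le_div_iff₀ hl]
      calc x ^ (1 / 2 : ℝ) * Real.log x ≤ x ^ (1 / 2 : ℝ) * x ^ (1 / 2 : ℝ) :=
            mul_le_mul_of_nonneg_left hx (Real.rpow_nonneg (by linarith) _)
        _ = x := by
            rw [← Real.rpow_add (by linarith)]
            norm_num
    exact h2.comp tendsto_natCast_atTop_atTop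
  obtain ⟨X3, h3⟩ := eventually_atTop.1 (t1.eventually_ge_atTop (2 * A / ε₁))
  refine ⟨X1 + X2 + X3 + 16, fun X hX L hL => ?_⟩
  have hX16 : (16 : ℝ) ≤ X := by exact_mod_cast (by omega : 16 ≤ X)
  have hXr : (0 : ℝ) < X := by linarith
  set m := K / k' with hm
  have hmk : m * k' ≤ K := Nat.div_mul_le_self _ _
  have hm2 : 2 ≤ m := by
    rw [hm, Nat.le_div_iff_mul_le hk1]
    exact hK
  have hmK : (K : ℝ) ≤ 2 * m * k' := by
    have h1 : K < (m + 1) * k' := by
      rw [hm, mul_comm]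
      exact Nat.lt_mul_div_succ K hk1
    have h2 : K ≤ 2 * m * k' := by nlinarith
    exact_mod_cast h2
  have hLM : ((L * M : ℕ) : ℝ) ≤ lam * M * Real.log X := by
    push_cast
    calc (L : ℝ) * M ≤ (lam * Real.log X) * M := mul_le_mul_of_nonneg_right hL hMr.le
      _ = _ := by ring
  have hcard := SQ_card (X := X) (by omega)
  have hPr : 0 ≤ Pr X := le_trans (Nat.cast_nonneg _) hcard
  have hav := avg (SQ X) (fun n i => G X M (L * M) (n + 1) i) k' m K (by omega) hmk
    (1 / (4 * k')) (ε₁ * Pr X) (by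
      rw [div_mul_eq_mul_div, one_mul, div_le_iff₀ (by positivity)]
      linarith) (by
    intro j hj
    have hjk : j * k' + k' ≤ K := by
      have h1 : (j + 1) * k' ≤ m * k' := Nat.mul_le_mul_right k' hj
      have h2 : (j + 1) * k' = j * k' + k' := by ring
      omega
    have h1 := hb X (by omega) (L * M) (j * k') hLM hjk
    have htot := card_filter_add_card_filter_not (s := SQ X)
      (fun n => ∃ i < k', G X M (L * M) (n + 1) (j * k' + i))
    have htot' : (((SQ X).filter
        (fun n => ∃ i < k', G X M (L * M) (n + 1) (j * k' + i))).card : ℝ) +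
        (((SQ X).filter
        (fun n => ¬ ∃ i < k', G X M (L * M) (n + 1) (j * k' + i))).card : ℝ) = (SQ X).card := by
      exact_mod_cast htot
    have h3 : (1 - ε₁) * Pr X ≤ (((SQ X).filter
        (fun n => ∃ i < k', G X M (L * M) (n + 1) (j * k' + i))).card : ℝ) :=
      (mul_le_mul_of_nonneg_right hgood hPr).trans h1
    linarith)
  have h5 := few_small X A
  have h6 : (A : ℝ) ≤ ε₁ * Pr X := by
    have h7 := (hs X (by omega)).1
    have h8 := h3 X (by omega)
    rw [div_le_iff₀ hε₁0] at h8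
    have h9 : ε₁ * ((X : ℝ) / Real.log X / 2) ≤ ε₁ * Pr X := mul_le_mul_of_nonneg_left h7 hε₁0.le
    linarith
  have h7 : (SQ X).filter (fun n => (((range K).filter (fun i => ∀ a m : ℕ, 1 ≤ a → a ≤ A →
        i * L * a < m → m ≤ (i + 1) * L * a →
          ¬ (m * (n + 1) + a).Prime ∧ ¬ (m * (n + 1) - a).Prime)).card : ℝ) < 1 / (4 * k') * K) ⊆
      ((SQ X).filter (fun n => (((range K).filter
        (fun i => G X M (L * M) (n + 1) i)).card : ℝ) < 1 / (4 * k') * K)) ∪
      ((SQ X).filter (fun n => ¬ X + A < n + 1)) := by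
    intro n hn
    rw [mem_filter] at hn
    rw [mem_union, mem_filter, mem_filter]
    by_cases hXA : X + A < n + 1
    · left
      refine ⟨hn.1, lt_of_le_of_lt ?_ hn.2⟩
      apply Nat.cast_le.2
      apply card_le_card
      intro i hi
      rw [mem_filter] at hi ⊢
      refine ⟨hi.1, ?_⟩
      have hG := hi.2
      intro a m' ha1 haA hm1 hm2
      obtain ⟨e, he0, he1, he2⟩ := ratio ha1 haA
      rw [hM] at hG
      refine composite_of_G hXA haA he1 he2 hG ?_ ?_
      · have h8 : i * (L * A.factorial ^ 2) = i * L * a * e := by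
          rw [he1]
          ring
        rw [h8]
        exact Nat.mul_lt_mul_of_pos_right hm1 he0
      · have h8 : (i + 1) * (L * A.factorial ^ 2) = (i + 1) * L * a * e := by
          rw [he1]
          ring
        rw [h8]
        exact Nat.mul_le_mul_right _ hm2
    · right
      exact ⟨hn.1, hXA⟩
  have h8 := card_le_card h7
  have h9 : (((SQ X).filter (fun n => (((range K).filter (fun i => ∀ a m : ℕ, 1 ≤ a → a ≤ A →
        i * L * a < m → m ≤ (i + 1) * L * a →
          ¬ (m * (n + 1) + a).Prime ∧ ¬ (m * (n + 1) - a).Prime)).card : ℝ) <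
            1 / (4 * k') * K)).card : ℝ) ≤
      (((SQ X).filter (fun n => (((range K).filter
        (fun i => G X M (L * M) (n + 1) i)).card : ℝ) < 1 / (4 * k') * K)).card : ℝ) +
      (((SQ X).filter (fun n => ¬ X + A < n + 1)).card : ℝ) := by
    exact_mod_cast (card_le_card h7).trans (card_union_le _ _)
  have h10 : ε₁ ≤ ε / 4 := by
    rw [hε₁]
    have := min_le_left ε 1
    linarith
  have h11 : ε₁ * Pr X ≤ ε / 4 * Pr X := mul_le_mul_of_nonneg_right h10 hPr
  have h12 : 0 ≤ ε * Pr X := by positivity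
  linarith

end Pool.Agent.R502.TW
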