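import Pool.Agent.R502.AQ.Alm
import Pool.Agent.R526.AA.Prm

/-!
The twist: linear forms `h q + M` and `h q - M` as shifts of one integer.
-/

set_option autoImplicit false

open Finset Filter Topology

namespace Pool.Agent.R502.TW

open Pool.Agent.H361R2.PP
open Pool.Agent.R526.AA
open Pool.Agent.R502.AQ

/-- the inverse of `q` modulo all primes up to `X` -/
def inv (X q : ℕ) : ℕ := q ^ (X.factorial - 1)

theorem inv_mul {X q l : ℕ} (hl : l.Prime) (hX : l ≤ X) (hq : ¬ l ∣ q) :
    inv X q * q ≡ 1 [MOD l] := by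
  have hf : 1 ≤ X.factorial := Nat.factorial_pos X
  unfold inv
  have h1 : q ^ (X.factorial - 1) * q = q ^ X.factorial := by
    rw [← pow_succ]
    congr 1
    omega
  rw [h1]
  have h2 : l - 1 ∣ X.factorial := Nat.dvd_factorial (by have := hl.two_le; omega) (by omega)
  obtain ⟨c, hc⟩ := h2
  have h3 : q ^ (l - 1) ≡ 1 [MOD l] := by
    have h4 : Nat.Coprime q l := ((Nat.Prime.coprime_iff_not_dvd hl).2 hq).symm
    have := Nat.ModEq.pow_totient h4
    rwa [Nat.totient_prime hl] at this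
  rw [hc, pow_mul]
  calc (q ^ (l - 1)) ^ c ≡ 1 ^ c [MOD l] := h3.pow c
    _ = 1 := one_pow c

theorem inv_mul_cast {X q l : ℕ} (hl : l.Prime) (hX : l ≤ X) (hq : ¬ l ∣ q) :
    (inv X q : ZMod l) * (q : ZMod l) = 1 := by
  have h := (ZMod.natCast_eq_natCast_iff _ _ _).2 (inv_mul hl hX hq)
  push_cast at h
  exact h

/-- the twisted integer -/
def tw (X M a₀ q : ℕ) : ℕ := M * inv X q + (X.factorial - 1) * a₀

theorem tw_inj {X M a₀ : ℕ} (hX : 2 ≤ X) (hM : 0 < M) : Function.Injective (tw X M a₀) := by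
  intro a b hab
  unfold tw inv at hab
  have h1 : M * a ^ (X.factorial - 1) = M * b ^ (X.factorial - 1) := by omega
  have h2 := Nat.eq_of_mul_eq_mul_left hM h1
  have h3 : 2 ≤ X.factorial := by
    calc 2 = Nat.factorial 2 := by decide
      _ ≤ X.factorial := Nat.factorial_le hX
  exact Nat.pow_left_injective (by omega) h2

/-- the class of the centre -/
theorem tw_cast {X M a₀ q l : ℕ} (hl : l.Prime) (hX : l ≤ X) :
    ((tw X M a₀ q + a₀ : ℕ) : ZMod l) = M * (inv X q : ZMod l) := by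
  have hf : 1 ≤ X.factorial := Nat.factorial_pos X
  have h0 : ((X.factorial : ℕ) : ZMod l) = 0 :=
    (ZMod.natCast_eq_zero_iff _ _).2 (Nat.dvd_factorial hl.pos hX)
  have h1 : tw X M a₀ q + a₀ = M * inv X q + X.factorial * a₀ := by
    unfold tw
    obtain ⟨f, hf'⟩ : ∃ f, X.factorial = f + 1 := ⟨X.factorial - 1, by omega⟩
    rw [hf', Nat.add_sub_cancel]
    ring
  rw [h1]
  push_cast
  rw [h0]
  ring

theorem tw_pos {X M a₀ q l h : ℕ} (hl : l.Prime) (hX : l ≤ X) (hq : ¬ l ∣ q) :
    l ∣ tw X M a₀ q + (a₀ + h) ↔ l ∣ M + h * q := by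
  have : Fact l.Prime := ⟨hl⟩
  have h1 := inv_mul_cast hl hX hq
  have h2 := tw_cast (M := M) (a₀ := a₀) (q := q) hl hX
  rw [← ZMod.natCast_eq_zero_iff, ← ZMod.natCast_eq_zero_iff, ← add_assoc]
  push_cast at h2 ⊢
  have hq0 : (q : ZMod l) ≠ 0 := by
    intro h
    exact hq ((ZMod.natCast_eq_zero_iff _ _).1 h)
  constructor
  · intro h3
    linear_combination (q : ZMod l) * h3 - (q : ZMod l) * h2 - M * h1
  · intro h3
    have h4 : (q : ZMod l) * ((tw X M a₀ q : ZMod l) + a₀ + h) = 0 := by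
      linear_combination h3 + (q : ZMod l) * h2 + M * h1
    rcases mul_eq_zero.1 h4 with h5 | h5
    · exact absurd h5 hq0
    · exact h5

theorem tw_neg {X M a₀ q l h : ℕ} (hl : l.Prime) (hX : l ≤ X) (hq : ¬ l ∣ q) (hh : h ≤ a₀) :
    l ∣ tw X M a₀ q + (a₀ - h) ↔ h * q ≡ M [MOD l] := by
  have : Fact l.Prime := ⟨hl⟩
  have h1 := inv_mul_cast hl hX hq
  have h2 := tw_cast (M := M) (a₀ := a₀) (q := q) hl hX
  rw [← ZMod.natCast_eq_zero_iff, ← ZMod.natCast_eq_natCast_iff]
  push_cast [Nat.cast_sub hh] at h2 ⊢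
  have hq0 : (q : ZMod l) ≠ 0 := by
    intro h
    exact hq ((ZMod.natCast_eq_zero_iff _ _).1 h)
  constructor
  · intro h3
    linear_combination (q : ZMod l) * h2 - (q : ZMod l) * h3 + M * h1
  · intro h3
    have h4 : (q : ZMod l) * ((tw X M a₀ q : ZMod l) + (a₀ - h)) = 0 := by
      linear_combination (q : ZMod l) * h2 - h3 + M * h1
    rcases mul_eq_zero.1 h4 with h5 | h5
    · exact absurd h5 hq0
    · exact h5

open Classical in
/-- the twist keeps the level of distribution -/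
theorem tw_Eqd {X M a₀ : ℕ} {P S : Finset ℕ} {Ω : ℝ} {Er : Finset ℕ → ℝ} (hX : 2 ≤ X) (hM : 0 < M)
    (hP : ∀ l ∈ P, l.Prime ∧ l ≤ X ∧ ¬ l ∣ M) (h : Eqd (some 1) P S Ω Er) :
    Eqd (some a₀) P (S.image (fun n => tw X M a₀ (n + 1))) Ω Er := by
  obtain ⟨h1, h2, h3⟩ := h
  have hf : 1 ≤ X.factorial := Nat.factorial_pos X
  have hinj : Function.Injective (fun n : ℕ => tw X M a₀ (n + 1)) := by
    intro a b hab
    have := tw_inj hX hM hab
    omega
  refine ⟨?_, h2, ?_⟩
  · intro n' hn' l hl a ha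
    rw [mem_image] at hn'
    obtain ⟨n, hn, rfl⟩ := hn'
    rw [Option.mem_def, Option.some.injEq] at ha
    subst ha
    obtain ⟨hlp, hlX, hlM⟩ := hP l hl
    have hq : ¬ l ∣ n + 1 := h1 n hn l hl 1 rfl
    intro hd
    have := (tw_pos (M := M) (a₀ := a₀) (h := 0) hlp hlX hq).1 hd
    rw [Nat.zero_mul, Nat.add_zero] at this
    exact hlM this
  · intro D hD r hr
    have hrl : ∀ l ∈ D, ¬ l ∣ r + a₀ := fun l hl => hr l hl a₀ rfl
    obtain ⟨r', hr'⟩ : ∃ r', r' + 1 = M * inv X (r + a₀) + X.factorial :=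
      ⟨M * inv X (r + a₀) + X.factorial - 1, by omega⟩
    have hr'c : ∀ l ∈ D, ((r' : ZMod l)) + 1 = M * (inv X (r + a₀) : ZMod l) := by
      intro l hl
      obtain ⟨hlp, hlX, hlM⟩ := hP l (hD hl)
      have h0 : ((X.factorial : ℕ) : ZMod l) = 0 :=
        (ZMod.natCast_eq_zero_iff _ _).2 (Nat.dvd_factorial hlp.pos hlX)
      have h4 : ((r' + 1 : ℕ) : ZMod l) = ((M * inv X (r + a₀) + X.factorial : ℕ) : ZMod l) := by
        rw [hr']
      push_cast at h4
      rw [h0, add_zero] at h4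
      exact h4
    have hok : ∀ l ∈ D, ok (some 1) l r' := by
      intro l hl a ha
      rw [Option.mem_def, Option.some.injEq] at ha
      subst ha
      obtain ⟨hlp, hlX, hlM⟩ := hP l (hD hl)
      have : Fact l.Prime := ⟨hlp⟩
      intro hd
      have h4 := (ZMod.natCast_eq_zero_iff _ _).2 hd
      push_cast at h4
      rw [hr'c l hl] at h4
      have h5 := inv_mul_cast hlp hlX (hrl l hl)
      rcases mul_eq_zero.1 h4 with h6 | h6
      · exact hlM ((ZMod.natCast_eq_zero_iff _ _).1 h6)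
      · rw [h6, zero_mul] at h5
        exact zero_ne_one h5
    have h4 := h3 D hD r' hok
    have h5 : ((S.image (fun n => tw X M a₀ (n + 1))).filter
        (fun n => ∀ p ∈ D, n % p = r % p)).card =
        (S.filter (fun n => ∀ p ∈ D, n % p = r' % p)).card := by
      rw [filter_image, card_image_of_injective _ hinj]
      congr 1
      apply filter_congr
      intro n hn
      apply forall₂_congr
      intro l hl
      obtain ⟨hlp, hlX, hlM⟩ := hP l (hD hl)
      have : Fact l.Prime := ⟨hlp⟩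
      have e1 := inv_mul_cast hlp hlX (hrl l hl)
      have e2 := inv_mul_cast (q := n + 1) hlp hlX (h1 n hn l (hD hl) 1 rfl)
      have e3 := tw_cast (M := M) (a₀ := a₀) (q := n + 1) hlp hlX
      have e4 := hr'c l hl
      change tw X M a₀ (n + 1) ≡ r [MOD l] ↔ n ≡ r' [MOD l]
      rw [← ZMod.natCast_eq_natCast_iff, ← ZMod.natCast_eq_natCast_iff]
      push_cast at e1 e2 e3 e4 ⊢
      constructor
      · intro h6
        have h7 : M * (inv X (n + 1) : ZMod l) = (r : ZMod l) + a₀ := by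
          rw [← e3, h6]
        have h8 : (n : ZMod l) + 1 = M * (inv X (r + a₀) : ZMod l) := by
          linear_combination (-((n : ZMod l) + 1)) * e1 -
            ((n : ZMod l) + 1) * (inv X (r + a₀) : ZMod l) * h7 +
            M * (inv X (r + a₀) : ZMod l) * e2
        rw [← e4] at h8
        linear_combination h8
      · intro h6
        have h8 : (n : ZMod l) + 1 = M * (inv X (r + a₀) : ZMod l) := by
          rw [← e4, h6]
        have h7 : M * (inv X (n + 1) : ZMod l) = (r : ZMod l) + a₀ := by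
          linear_combination (-(M : ZMod l) * (inv X (n + 1) : ZMod l)) * e1 -
            (inv X (n + 1) : ZMod l) * ((r : ZMod l) + a₀) * h8 + ((r : ZMod l) + a₀) * e2
        rw [← e3] at h7
        linear_combination h7
    rw [h5]
    exact h4

end Pool.Agent.R502.TW
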