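import Pool.Agent.R502.TW.Final

/-!
Primes whose residue modulo a prime `p` is a fraction with small numerator and denominator.
-/

set_option autoImplicit false

open Finset Filter Topology

namespace Pool.Agent.R502.TW

open Pool.Agent.H361R2.PP
open Pool.Agent.R526.AA
open Pool.Agent.R502.AQ

theorem no_prime_of_G {X A l p i n d a m c : ℕ} (hpX : X < p)
    (hG : G X (A.factorial ^ 2) l p i) (hn : n.Prime) (hnp : p < n) (hd1 : 1 ≤ d) (hdA : d ≤ A)
    (hc : A.factorial ^ 2 = a * c) (hcr : ∀ r : ℕ, r.Prime → r ∣ A.factorial ^ 2 → r ∣ c)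
    (h1 : i * l < m * c) (h2 : m * c ≤ (i + 1) * l) :
    ¬ (d * n = m * p + a) ∧ ¬ (d * n + a = m * p) := by
  have hdM : d ∣ A.factorial ^ 2 := (Nat.dvd_factorial hd1 hdA).trans (dvd_pow_self _ two_ne_zero)
  obtain ⟨⟨r, hr1, hr2, hr3, hr4⟩, ⟨r', hr1', hr2', hr3', hr4'⟩⟩ :=
    hG (m * c) h1 h2 (fun r hr hrM => (hcr r hr hrM).mul_left m)
  have fin : ∀ r : ℕ, r.Prime → r ≤ X → ¬ r ∣ A.factorial ^ 2 → ¬ r ∣ d * n := by
    intro r hr hrX hrM hdvd
    rcases (hr.dvd_mul).1 hdvd with h3 | h3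
    · exact hrM (h3.trans hdM)
    · have := (Nat.prime_dvd_prime_iff_eq hr hn).1 h3
      omega
  constructor
  · intro heq
    have h5 : A.factorial ^ 2 + m * c * p = c * (d * n) := by
      rw [hc, heq]
      ring
    rw [h5] at hr4
    rcases (hr1.dvd_mul).1 hr4 with h7 | h7
    · exact absurd (hc ▸ h7.mul_left a) hr3
    · exact fin r hr1 hr2 hr3 h7
  · intro heq
    have h5 : c * (d * n + a) ≡ c * (0 + a) [MOD r'] := by
      have e1 : c * (d * n + a) = m * c * p := by rw [heq]; ring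
      have e2 : c * (0 + a) = A.factorial ^ 2 := by rw [hc]; ring
      rw [e1, e2]
      exact hr4'
    have hco : Nat.Coprime r' c := by
      rw [Nat.Prime.coprime_iff_not_dvd hr1']
      intro h7
      exact hr3' (hc ▸ h7.mul_left a)
    have h6 : d * n + a ≡ 0 + a [MOD r'] := Nat.ModEq.cancel_left_of_coprime hco h5
    have h7 : d * n ≡ 0 [MOD r'] := Nat.ModEq.add_right_cancel' a h6
    exact fin r' hr1' hr2' hr3' ((Nat.modEq_zero_iff_dvd).1 h7)

/-- the residue of `n` modulo `p` is not a fraction of height at most `A` -/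
theorem no_fraction {X A l p n : ℕ} {lam : ℝ} (hX : 3 ≤ X) (hp : p.Prime) (hpX : X < p)
    (hAp : A < p) (hG : G X (A.factorial ^ 2) l p 0) (hn : n.Prime) (hnp : p < n)
    (hnl : (n : ℝ) ≤ lam * p * Real.log p) (hlam : 0 < lam)
    (hl : (A * lam + 1) * (A.factorial ^ 2 : ℕ) * Real.log p ≤ l) (d a : ℤ) (hd1 : 1 ≤ d)
    (hdA : d ≤ A) (haA : |a| ≤ A) : ¬ (p : ℤ) ∣ d * n - a := by
  intro hdvd
  obtain ⟨m, hm⟩ := hdvd
  obtain ⟨D, rfl⟩ : ∃ D : ℕ, d = D := ⟨d.toNat, by omega⟩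
  have hD1 : 1 ≤ D := by omega
  have hDA : D ≤ A := by omega
  have hAp' : (A : ℤ) < p := by exact_mod_cast hAp
  have hp0 : (0 : ℤ) < p := by exact_mod_cast hp.pos
  obtain ⟨ha1, ha2⟩ := abs_le.1 haA
  have hnn : (p : ℤ) < n := by exact_mod_cast hnp
  have hDn : (n : ℤ) ≤ D * n := by nlinarith
  have hmpos : 0 < m := by
    by_contra h
    push Not at h
    nlinarith
  obtain ⟨k, rfl⟩ : ∃ k : ℕ, m = k := ⟨m.toNat, by omega⟩
  have hk1 : 1 ≤ k := by omega
  have hane : a ≠ 0 := by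
    intro h0
    rw [h0, sub_zero] at hm
    have h3 : (p : ℤ) ∣ ((D * n : ℕ) : ℤ) := ⟨k, by push_cast; exact hm⟩
    have h4 : p ∣ D * n := by exact_mod_cast h3
    rcases (hp.dvd_mul).1 h4 with h5 | h5
    · have := Nat.le_of_dvd (by omega) h5
      omega
    · have := (Nat.prime_dvd_prime_iff_eq hp hn).1 h5
      omega
  obtain ⟨b, hb⟩ : ∃ b : ℕ, b = a.natAbs := ⟨_, rfl⟩
  have hb1 : 1 ≤ b := by omega
  have hbA : b ≤ A := by omega
  obtain ⟨c, hc0, hc, hcr⟩ := ratio hb1 hbA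
  have hplog : 1 ≤ Real.log p := by
    have h3 : (3 : ℝ) ≤ p := by exact_mod_cast (by omega : 3 ≤ p)
    rw [Real.le_log_iff_exp_le (by linarith)]
    have := Real.exp_one_lt_d9
    linarith
  have hp0' : (0 : ℝ) < p := by exact_mod_cast hp.pos
  have hkb : (k : ℝ) ≤ (A * lam + 1) * Real.log p := by
    have h3 : (k : ℝ) * p = D * n - a := by
      have : ((p : ℤ) * k : ℤ) = D * n - a := hm.symm
      have h4 : (((p : ℤ) * k : ℤ) : ℝ) = ((D * n - a : ℤ) : ℝ) := by rw [this]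
      push_cast at h4
      linarith
    have h4 : -(a : ℝ) ≤ p := by
      have : -a ≤ (p : ℤ) := by omega
      exact_mod_cast this
    have h5 : (D : ℝ) * n ≤ A * (lam * p * Real.log p) := by
      have : (D : ℝ) ≤ A := by exact_mod_cast hDA
      apply mul_le_mul this hnl (Nat.cast_nonneg _) (Nat.cast_nonneg _)
    have h6 : (k : ℝ) * p ≤ ((A * lam + 1) * Real.log p) * p := by nlinarith
    exact le_of_mul_le_mul_right h6 hp0'
  have hh2 : k * c ≤ (0 + 1) * l := by
    rw [zero_add, one_mul]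
    have h3 : ((k * c : ℕ) : ℝ) ≤ l := by
      refine le_trans ?_ hl
      push_cast
      have h4 : (c : ℝ) ≤ ((A.factorial ^ 2 : ℕ) : ℝ) := by
        rw [hc]
        exact_mod_cast Nat.le_mul_of_pos_left c hb1
      have h5 : (k : ℝ) * c ≤ ((A * lam + 1) * Real.log p) * ((A.factorial ^ 2 : ℕ) : ℝ) :=
        mul_le_mul hkb h4 (Nat.cast_nonneg _) (by positivity)
      push_cast at h5
      linarith
    exact_mod_cast h3
  have hh1 : 0 * l < k * c := by
    rw [zero_mul]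
    positivity
  obtain ⟨f1, f2⟩ := no_prime_of_G (m := k) hpX hG hn hnp hD1 hDA hc hcr hh1 hh2
  rcases lt_or_gt_of_ne hane with h3 | h3
  · apply f2
    have : ((D * n + b : ℕ) : ℤ) = ((k * p : ℕ) : ℤ) := by
      push_cast
      have : (b : ℤ) = -a := by omega
      rw [this]
      linarith
    exact_mod_cast this
  · apply f1
    have : ((D * n : ℕ) : ℤ) = ((k * p + b : ℕ) : ℤ) := by
      push_cast
      have : (b : ℤ) = a := by omega
      rw [this]
      linarith
    exact_mod_cast this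

open Classical in
/-- positive proportion -/
theorem pos_final (lam : ℝ) (hlam : 0 < lam) (A : ℕ) :
    ∃ c : ℝ, 0 < c ∧ ∃ X₀ : ℕ, ∀ X : ℕ, X₀ ≤ X →
      c * Nat.primeCounting X ≤ (((Icc 1 X).filter (fun p => p.Prime ∧ ∀ n : ℕ, n.Prime → p < n →
        (n : ℝ) ≤ lam * p * Real.log p → ∀ d a : ℤ, 1 ≤ d → d ≤ A → |a| ≤ A →
          ¬ (p : ℤ) ∣ d * n - a)).card : ℝ) := by
  obtain ⟨M, hM⟩ : ∃ M, M = A.factorial ^ 2 := ⟨_, rfl⟩
  have hM0 : 0 < M := by rw [hM]; have := Nat.factorial_pos A; positivity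
  have hMr : (0 : ℝ) < M := by exact_mod_cast hM0
  have hA0 : (0 : ℝ) ≤ A := Nat.cast_nonneg _
  obtain ⟨κ, hκ⟩ : ∃ κ : ℝ, κ = (A * lam + 1) * M := ⟨_, rfl⟩
  have hκ0 : 0 < κ := by rw [hκ]; positivity
  obtain ⟨C, hC, hk⟩ := basicTw (2 * κ + 1) 1 (by positivity) one_pos le_rfl
  obtain ⟨X1, hb⟩ := hk 1 one_pos 1 M hM0
  obtain ⟨X2, hs⟩ := sizes
  obtain ⟨c, hc⟩ : ∃ c : ℝ, c = (1 - 1 / 4) ^ 2 / (1 + 1 / 8 + C / (1 : ℕ)) := ⟨_, rfl⟩
  have hc0 : 0 < c := by rw [hc]; positivity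
  refine ⟨c / 16, by positivity, 3 * (X1 + X2 + A + 16), fun Z hZ => ?_⟩
  obtain ⟨X, hX⟩ : ∃ X, X = Z / 2 := ⟨_, rfl⟩
  have hX2 : 2 * X ≤ Z := by omega
  have hX3 : Z ≤ 2 * X + 1 := by omega
  have hXX : X1 + X2 + A + 16 ≤ X := by omega
  have hX16 : (16 : ℝ) ≤ X := by exact_mod_cast (by omega : 16 ≤ X)
  have hXr : (0 : ℝ) < X := by linarith
  have hL : 1 ≤ Real.log X := by
    rw [Real.le_log_iff_exp_le hXr]
    have := Real.exp_one_lt_d9
    linarith
  have hL2 : Real.log (2 * X) ≤ 2 * Real.log X := by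
    calc Real.log (2 * X) ≤ Real.log ((X : ℝ) * X) := Real.log_le_log (by positivity) (by nlinarith)
      _ = 2 * Real.log X := by rw [Real.log_mul hXr.ne' hXr.ne']; ring
  obtain ⟨l, hl⟩ : ∃ l : ℕ, l = ⌈κ * Real.log (2 * X)⌉₊ := ⟨_, rfl⟩
  have hl1 : κ * Real.log (2 * X) ≤ l := by rw [hl]; exact Nat.le_ceil _
  have hL0 : 0 ≤ Real.log (2 * X) := Real.log_nonneg (by linarith)
  have hl2 : (l : ℝ) ≤ (2 * κ + 1) * Real.log X := by
    have h4 := Nat.ceil_lt_add_one (show 0 ≤ κ * Real.log (2 * X) by positivity)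
    rw [← hl] at h4
    have h5 : κ * Real.log (2 * X) ≤ κ * (2 * Real.log X) :=
      mul_le_mul_of_nonneg_left hL2 (by positivity)
    linarith
  have h4'' := hb X (by omega) l 0 hl2 (by omega)
  rw [← hc] at h4''
  have h4 : c * Pr X ≤ (((Icc 1 Z).filter (fun p => p.Prime ∧ ∀ n : ℕ, n.Prime → p < n →
        (n : ℝ) ≤ lam * p * Real.log p → ∀ d a : ℤ, 1 ≤ d → d ≤ A → |a| ≤ A →
          ¬ (p : ℤ) ∣ d * n - a)).card : ℝ) := by
    refine h4''.trans ?_
    apply Nat.cast_le.2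
    apply card_le_card_of_injOn (fun n => n + 1)
    · intro n hn
      rw [mem_coe, mem_filter] at hn
      obtain ⟨i, hi, hG⟩ := hn.2
      have hi0 : 0 + i = 0 := by omega
      rw [hi0] at hG
      have hS := hn.1
      unfold SQ at hS
      rw [mem_filter, mem_Ico] at hS
      change n + 1 ∈ _
      rw [mem_coe, mem_filter, mem_Icc]
      refine ⟨⟨by omega, by omega⟩, hS.2, ?_⟩
      intro n' hn' hpn hnl d a hd1 hdA haA
      rw [hM] at hG
      refine no_fraction (X := X) (l := l) (lam := lam) (by omega) hS.2 (by omega) (by omega) hG hn'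
        hpn hnl hlam ?_ d a hd1 hdA haA
      refine le_trans ?_ hl1
      rw [hκ, hM]
      apply mul_le_mul_of_nonneg_left _ (by positivity)
      apply Real.log_le_log
      · exact_mod_cast hS.2.pos
      · exact_mod_cast (by omega : n + 1 ≤ 2 * X)
    · intro a _ b _ h
      simp only at h
      omega
  refine le_trans ?_ h4
  obtain ⟨s1, -, -⟩ := hs X (by omega)
  obtain ⟨-, -, s3⟩ := hs Z (by omega)
  have hZr : (Z : ℝ) ≤ 4 * X := by exact_mod_cast (by omega : Z ≤ 4 * X)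
  have hXZ : (X : ℝ) ≤ Z := by exact_mod_cast (by omega : X ≤ Z)
  have hlog : Real.log X ≤ Real.log Z := Real.log_le_log hXr hXZ
  have h5 : (Z : ℝ) / Real.log Z ≤ 4 * (X / Real.log X) := by
    rw [mul_div_assoc', div_le_div_iff₀ (by linarith) (by linarith)]
    have h6 : (Z : ℝ) * Real.log X ≤ (4 * X) * Real.log X :=
      mul_le_mul_of_nonneg_right hZr (by linarith)
    have h7 : (4 * X : ℝ) * Real.log X ≤ (4 * X) * Real.log Z :=
      mul_le_mul_of_nonneg_left hlog (by linarith)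
    linarith
  have h6 : (Nat.primeCounting Z : ℝ) ≤ 16 * Pr X := by linarith
  calc c / 16 * (Nat.primeCounting Z : ℝ) ≤ c / 16 * (16 * Pr X) :=
        mul_le_mul_of_nonneg_left h6 (by positivity)
    _ = c * Pr X := by ring

open Classical in
/-- almost all primes -/
theorem almost_final (lam ε : ℝ) (hlam : 0 < lam) (hε : 0 < ε) (A : ℕ) :
    ∃ c : ℝ, 0 < c ∧ ∃ K₀ : ℕ, ∀ K : ℕ, K₀ ≤ K → ∃ X₀ : ℕ, ∀ X : ℕ, X₀ ≤ X →
      ∀ L : ℕ, (L : ℝ) ≤ lam * Real.log X →
      (((Ioc X (2 * X)).filter (fun p => p.Prime ∧ (((range K).filter (fun i =>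
        ∀ n d a m : ℕ, n.Prime → p < n → 1 ≤ d → d ≤ A → 1 ≤ a → a ≤ A →
        i * L * a < m → m ≤ (i + 1) * L * a →
          d * n ≠ m * p + a ∧ d * n ≠ m * p - a)).card : ℝ) < c * K)).card : ℝ) ≤
        ε * Nat.primeCounting X := by
  obtain ⟨M, hM⟩ : ∃ M, M = A.factorial ^ 2 := ⟨_, rfl⟩
  have hM0 : 0 < M := by rw [hM]; have := Nat.factorial_pos A; positivity
  have hMr : (0 : ℝ) < M := by exact_mod_cast hM0
  obtain ⟨ε₁, hε₁⟩ : ∃ e : ℝ, e = min ε 1 / 8 := ⟨_, rfl⟩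
  have hε₁0 : 0 < ε₁ := by rw [hε₁]; positivity
  have hε₁1 : ε₁ ≤ 1 := by rw [hε₁]; have := min_le_right ε 1; linarith
  obtain ⟨C, hC, hkk⟩ := basicTw (lam * M) ε₁ (by positivity) hε₁0 hε₁1
  obtain ⟨k, hk⟩ := exists_nat_ge (8 * C / ε₁)
  have hk1 : 0 < k + 1 := Nat.succ_pos k
  have hgood : 1 - ε₁ ≤ (1 - ε₁ / 4) ^ 2 / (1 + ε₁ / 8 + C / ((k + 1 : ℕ) : ℝ)) := by
    apply eps_ineq hε₁0 hε₁1 (by positivity) le_rfl (by positivity)
    rw [div_le_iff₀ (by positivity)]
    rw [div_le_iff₀ hε₁0] at hk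
    push_cast
    nlinarith
  have hk0 : (0 : ℝ) < ((k + 1 : ℕ) : ℝ) := by exact_mod_cast hk1
  generalize k + 1 = k' at *
  refine ⟨1 / (4 * k'), by positivity, 2 * k', fun K hK => ?_⟩
  obtain ⟨X1, hb⟩ := hkk k' hk1 K M hM0
  obtain ⟨X2, hs⟩ := sizes
  refine ⟨X1 + X2 + A + 16, fun X hX L hL => ?_⟩
  have hX16 : (16 : ℝ) ≤ X := by exact_mod_cast (by omega : 16 ≤ X)
  have hXr : (0 : ℝ) < X := by linarith
  set m := K / k' with hm
  have hmk : m * k' ≤ K := Nat.div_mul_le_self _ _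
  have hm2 : 2 ≤ m := by
    rw [hm, Nat.le_div_iff_mul_le hk1]
    exact hK
  have hmK : (K : ℝ) ≤ 2 * m * k' := by
    have h1 : K < (m + 1) * k' := by
      rw [hm, mul_comm]
      exact Nat.lt_mul_div_succ K hk1
    have h2 : K ≤ 2 * m * k' := by nlinarith
    exact_mod_cast h2
  have hLM : ((L * M : ℕ) : ℝ) ≤ lam * M * Real.log X := by
    push_cast
    calc (L : ℝ) * M ≤ (lam * Real.log X) * M := mul_le_mul_of_nonneg_right hL hMr.le
      _ = _ := by ring
  have hcard := SQ_card (X := X) (by omega)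
  have hPr : 0 ≤ Pr X := le_trans (Nat.cast_nonneg _) hcard
  have hav := avg (SQ X) (fun n i => G X M (L * M) (n + 1) i) k' m K (by omega) hmk
    (1 / (4 * k')) (ε₁ * Pr X) (by
      rw [div_mul_eq_mul_div, one_mul, div_le_iff₀ (by positivity)]
      linarith) (by
    intro j hj
    have hjk : j * k' + k' ≤ K := by
      have h1 : (j + 1) * k' ≤ m * k' := Nat.mul_le_mul_right k' hj
      have h2 : (j + 1) * k' = j * k' + k' := by ring
      omega
    have h1 := hb X (by omega) (L * M) (j * k') hLM hjk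
    have htot := card_filter_add_card_filter_not (s := SQ X)
      (fun n => ∃ i < k', G X M (L * M) (n + 1) (j * k' + i))
    have htot' : (((SQ X).filter
        (fun n => ∃ i < k', G X M (L * M) (n + 1) (j * k' + i))).card : ℝ) +
        (((SQ X).filter
        (fun n => ¬ ∃ i < k', G X M (L * M) (n + 1) (j * k' + i))).card : ℝ) = (SQ X).card := by
      exact_mod_cast htot
    have h3 : (1 - ε₁) * Pr X ≤ (((SQ X).filter
        (fun n => ∃ i < k', G X M (L * M) (n + 1) (j * k' + i))).card : ℝ) :=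
      (mul_le_mul_of_nonneg_right hgood hPr).trans h1
    linarith)
  have h7 : (((Ioc X (2 * X)).filter (fun p => p.Prime ∧ (((range K).filter (fun i =>
        ∀ n d a m : ℕ, n.Prime → p < n → 1 ≤ d → d ≤ A → 1 ≤ a → a ≤ A →
        i * L * a < m → m ≤ (i + 1) * L * a →
          d * n ≠ m * p + a ∧ d * n ≠ m * p - a)).card : ℝ) < 1 / (4 * k') * K)).card : ℝ) ≤
      (((SQ X).filter (fun n => (((range K).filter
        (fun i => G X M (L * M) (n + 1) i)).card : ℝ) < 1 / (4 * k') * K)).card : ℝ) := by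
    apply Nat.cast_le.2
    apply card_le_card_of_injOn (fun p => p - 1)
    · intro p hp
      rw [mem_coe, mem_filter, mem_Ioc] at hp
      obtain ⟨⟨hp1, hp2⟩, hpp, hp3⟩ := hp
      have hp2' : p ≠ 2 * X := by
        rintro rfl
        exact Nat.not_prime_mul (by norm_num) (by omega) hpp
      have e1 : p - 1 + 1 = p := by omega
      change p - 1 ∈ _
      rw [mem_coe, mem_filter]
      refine ⟨?_, ?_⟩
      · unfold SQ
        rw [mem_filter, mem_Ico, e1]
        exact ⟨⟨by omega, by omega⟩, hpp⟩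
      · rw [e1]
        refine lt_of_le_of_lt ?_ hp3
        apply Nat.cast_le.2
        apply card_le_card
        intro i hi
        rw [mem_filter] at hi ⊢
        refine ⟨hi.1, ?_⟩
        have hG := hi.2
        rw [hM] at hG
        intro n d a m' hn hpn hd1 hdA ha1 haA hm1 hm2
        obtain ⟨e, he0, he1, he2⟩ := ratio ha1 haA
        have hmpos : 1 ≤ m' := by omega
        have hmp : p ≤ m' * p := Nat.le_mul_of_pos_left _ hmpos
        obtain ⟨f1, f2⟩ := no_prime_of_G (m := m') (by omega) hG hn hpn hd1 hdA he1 he2 (by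
          have h8 : i * (L * A.factorial ^ 2) = i * L * a * e := by
            rw [he1]
            ring
          rw [h8]
          exact Nat.mul_lt_mul_of_pos_right hm1 he0) (by
          have h8 : (i + 1) * (L * A.factorial ^ 2) = (i + 1) * L * a * e := by
            rw [he1]
            ring
          rw [h8]
          exact Nat.mul_le_mul_right _ hm2)
        refine ⟨f1, fun h9 => f2 ?_⟩
        omega
    · intro p hp q hq h
      rw [mem_coe, mem_filter, mem_Ioc] at hp hq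
      simp only at h
      omega
  obtain ⟨-, s2, -⟩ := hs X (by omega)
  have h10 : ε₁ ≤ ε / 8 := by
    rw [hε₁]
    have := min_le_left ε 1
    linarith
  have h11 : ε₁ * Pr X ≤ ε / 8 * (4 * Nat.primeCounting X) :=
    mul_le_mul h10 s2 hPr (by positivity)
  have h12 : (0 : ℝ) ≤ Nat.primeCounting X := Nat.cast_nonneg _
  linarith

end Pool.Agent.R502.TW
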