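import Pool.Agent.R502.TW.Basic
import Pool.Agent.H96R2.EQP.Main

/-!
Multiples of primes: `h p + M` and `h p - M` for the `h` of a block.
-/

set_option autoImplicit false

open Finset Filter Topology

namespace Pool.Agent.R502.TW

open Pool.Agent.H361R2.PP
open Pool.Agent.R526.AA
open Pool.Agent.R502.AQ

/-- all `h p + M` and `h p - M` with `h` in the block and divisible by the primes dividing `M` have a
prime factor at most `X` -/
def G (X M l p i : ℕ) : Prop :=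
  ∀ h : ℕ, i * l < h → h ≤ (i + 1) * l → (∀ r : ℕ, r.Prime → r ∣ M → r ∣ h) →
    (∃ r : ℕ, r.Prime ∧ r ≤ X ∧ ¬ r ∣ M ∧ r ∣ M + h * p) ∧
    (∃ r : ℕ, r.Prime ∧ r ≤ X ∧ ¬ r ∣ M ∧ h * p ≡ M [MOD r])

theorem HH_large (A : ℕ) : ∃ X₀ : ℕ, ∀ X : ℕ, X₀ ≤ X → A ≤ HH X := by
  have t : Tendsto (fun X : ℕ => Real.log (Real.log X) / 4) atTop atTop :=
    (Real.tendsto_log_atTop.comp (Real.tendsto_log_atTop.comp tendsto_natCast_atTop_atTop)).atTop_div_const
      (by norm_num)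
  obtain ⟨X₀, h⟩ := eventually_atTop.1 (t.eventually_ge_atTop (A : ℝ))
  refine ⟨X₀, fun X hX => ?_⟩
  unfold HH
  exact Nat.le_floor (h X hX)

/-- product of the primes dividing a twisted position -/
theorem tw_Sz {X M a₀ : ℕ} (hX : 4 ≤ X) (hM0 : 0 < M) (hM : M ≤ X) (ha₀ : a₀ ≤ X) (b : ℕ) :
    Sz ((SP X b 1).image (fun n => tw X M a₀ (n + 1))) X 4 := by
  intro n' hn' a ha1 haX
  rw [mem_image] at hn'
  obtain ⟨n, hn, rfl⟩ := hn'
  rw [mem_SP] at hn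
  have hp := hn.2.2.2
  have hPX : ∀ r ∈ PX X, r.Prime ∧ r ≤ X := by
    intro r hr
    rw [PX, mem_filter, mem_range] at hr
    exact ⟨hr.2.1, by omega⟩
  have hnp : ∀ r ∈ PX X, ¬ r ∣ n + 1 := by
    intro r hr hd
    obtain ⟨h1, h2⟩ := hPX r hr
    have := (Nat.prime_dvd_prime_iff_eq h1 hp).1 hd
    omega
  have hX4 : (4 : ℝ) ≤ X := by exact_mod_cast hX
  have hpow : ((X + X * (2 * X) : ℕ) : ℝ) ≤ (X : ℝ) ^ (4 : ℝ) := by
    have h1 : (X : ℝ) ^ (4 : ℝ) = (X : ℝ) ^ 4 := by rw [← Real.rpow_natCast]; norm_num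
    rw [h1]
    push_cast
    have h2 : (X : ℝ) + X * (2 * X) ≤ X ^ 3 := by nlinarith [mul_nonneg (by linarith : (0:ℝ) ≤ X) (by linarith : (0 : ℝ) ≤ (X : ℝ) - 4)]
    have h3 : (X : ℝ) ^ 3 ≤ X ^ 4 := pow_le_pow_right₀ (by linarith) (by norm_num)
    linarith
  refine le_trans ?_ hpow
  rw [← Nat.cast_prod, Nat.cast_le]
  rcases Nat.lt_or_ge a a₀ with hc | hc
  · -- negative side
    obtain ⟨h, hh⟩ : ∃ h, a = a₀ - h ∧ 1 ≤ h ∧ h ≤ a₀ := ⟨a₀ - a, by omega, by omega, by omega⟩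
    obtain ⟨rfl, hh1, hh2⟩ := hh
    have hbig : M < h * (n + 1) := by
      calc M < n + 1 := by omega
        _ = 1 * (n + 1) := (one_mul _).symm
        _ ≤ h * (n + 1) := Nat.mul_le_mul_right _ hh1
    have h1 : ∏ r ∈ (PX X).filter (fun r => r ∣ tw X M a₀ (n + 1) + (a₀ - h)), r ∣
        h * (n + 1) - M := by
      apply Finset.prod_primes_dvd
      · intro r hr
        exact (hPX r (mem_filter.1 hr).1).1.prime
      · intro r hr
        rw [mem_filter] at hr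
        have h2 := (tw_neg (hPX r hr.1).1 (hPX r hr.1).2 (hnp r hr.1) hh2).1 hr.2
        exact (Nat.modEq_iff_dvd' hbig.le).1 h2.symm
    have h2 := Nat.le_of_dvd (by omega) h1
    have h3 : h * (n + 1) ≤ X * (2 * X) := Nat.mul_le_mul (by omega) (by omega)
    omega
  · obtain ⟨h, rfl⟩ : ∃ h, a = a₀ + h := ⟨a - a₀, by omega⟩
    have h1 : ∏ r ∈ (PX X).filter (fun r => r ∣ tw X M a₀ (n + 1) + (a₀ + h)), r ∣
        M + h * (n + 1) := by
      apply Finset.prod_primes_dvd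
      · intro r hr
        exact (hPX r (mem_filter.1 hr).1).1.prime
      · intro r hr
        rw [mem_filter] at hr
        exact (tw_pos (hPX r hr.1).1 (hPX r hr.1).2 (hnp r hr.1)).1 hr.2
    have h2 := Nat.le_of_dvd (by omega) h1
    have h3 : h * (n + 1) ≤ X * (2 * X) := Nat.mul_le_mul (by omega) (by omega)
    omega

/-- the class of the positions -/
theorem exists_class (X M b a₀ : ℕ) (hM0 : 0 < M) (hHX : HH X ≤ X)
    (hb : (b + 1).Coprime (Wm X)) :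
    ∃ b' : ℕ, ∀ r : ℕ, r.Prime → r ∣ Wm X →
      (r ∣ M → b' + a₀ ≡ 1 [MOD r]) ∧
      (¬ r ∣ M → (b' + a₀) * (b + 1) ≡ M [MOD r]) := by
  have hW := Wm_pos X
  obtain ⟨W', hW'⟩ : ∃ W', W' = ∏ r ∈ (range (HH X + 1)).filter (fun r => r.Prime ∧ ¬ r ∣ M), r :=
    ⟨_, rfl⟩
  have hco : Nat.Coprime M W' := by
    rw [hW', Nat.coprime_prod_right_iff]
    intro r hr
    rw [mem_filter] at hr
    exact ((Nat.Prime.coprime_iff_not_dvd hr.2.1).2 hr.2.2).symm
  obtain ⟨c, hc1, hc2⟩ := Nat.chineseRemainder hco 1 (M * inv X (b + 1))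
  refine ⟨c + (Wm X - 1) * a₀, fun r hr hrW => ?_⟩
  have hrH : r ≤ HH X := by
    unfold Wm at hrW
    exact (Nat.Prime.dvd_primorial_iff hr).1 hrW
  have e1 : c + (Wm X - 1) * a₀ + a₀ = c + Wm X * a₀ := by
    obtain ⟨w, hw⟩ : ∃ w, Wm X = w + 1 := ⟨Wm X - 1, by omega⟩
    rw [hw, Nat.add_sub_cancel]
    ring
  have e2 : c + Wm X * a₀ ≡ c [MOD r] := by
    have : Wm X * a₀ ≡ 0 [MOD r] := (Nat.modEq_zero_iff_dvd).2 (hrW.mul_right _)
    simpa using this.add_left c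
  rw [e1]
  constructor
  · intro hrM
    exact e2.trans (hc1.of_dvd hrM)
  · intro hrM
    have h3 : r ∣ W' := by
      rw [hW']
      apply dvd_prod_of_mem
      rw [mem_filter, mem_range]
      exact ⟨by omega, hr, hrM⟩
    have h4 : ¬ r ∣ b + 1 := by
      intro h5
      have := Nat.dvd_gcd h5 hrW
      rw [hb] at this
      exact hr.one_lt.ne' (Nat.dvd_one.1 this)
    have h5 := inv_mul (X := X) hr (by omega) h4
    calc (c + Wm X * a₀) * (b + 1) ≡ c * (b + 1) [MOD r] := e2.mul_right _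
      _ ≡ M * inv X (b + 1) * (b + 1) [MOD r] := (hc2.of_dvd h3).mul_right _
      _ = M * (inv X (b + 1) * (b + 1)) := by ring
      _ ≡ M * 1 [MOD r] := h5.mul_left M
      _ = M := mul_one M

/-- the blocks of positions on both sides of the centre -/
noncomputable def BT (X b' N l K i : ℕ) : Finset ℕ :=
  Bk X b' N 0 l (K - 1 - i) ∪ Bk X b' N (K * l + 1) l i

theorem mem_BT {X b' N l K i a : ℕ} (hi : i < K) :
    a ∈ BT X b' N l K i ↔ a ∈ BB X b' N ∧ ∃ h, i * l < h ∧ h ≤ (i + 1) * l ∧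
      (a = K * l + 1 + h ∨ a = K * l + 1 - h) := by
  have e1 : (K - 1 - i) * l + (i + 1) * l = K * l := by
    rw [← add_mul]
    congr 1
    omega
  have e2 : (K - 1 - i + 1) * l + i * l = K * l := by
    rw [← add_mul]
    congr 1
    omega
  have e3 : (i + 1) * l = i * l + l := by ring
  unfold BT Bk
  rw [mem_union, mem_filter, mem_filter]
  constructor
  · rintro (⟨h1, h2, h3⟩ | ⟨h1, h2, h3⟩)
    · exact ⟨h1, K * l + 1 - a, by omega, by omega, Or.inr (by omega)⟩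
    · exact ⟨h1, a - (K * l + 1), by omega, by omega, Or.inl (by omega)⟩
  · rintro ⟨h1, h, h2, h3, rfl | rfl⟩
    · exact Or.inr ⟨h1, by omega, by omega⟩
    · exact Or.inl ⟨h1, by omega, by omega⟩

theorem BT_disj {X b' N l K i j : ℕ} (hi : i < K) (hj : j < K) (hij : i ≠ j) :
    Disjoint (BT X b' N l K i) (BT X b' N l K j) := by
  rw [Finset.disjoint_left]
  intro a ha hb
  rw [mem_BT hi] at ha
  rw [mem_BT hj] at hb
  obtain ⟨-, h, h1, h2, h3⟩ := ha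
  obtain ⟨-, h', h1', h2', h3'⟩ := hb
  have e1 : (i + 1) * l ≤ K * l := Nat.mul_le_mul_right _ hi
  have e2 : (j + 1) * l ≤ K * l := Nat.mul_le_mul_right _ hj
  rcases Nat.lt_or_gt_of_ne hij with h4 | h4
  · have : (i + 1) * l ≤ j * l := Nat.mul_le_mul_right _ h4
    omega
  · have : (j + 1) * l ≤ i * l := Nat.mul_le_mul_right _ h4
    omega

/-- from positions to linear forms -/
theorem G_of {X M l K i p b b' N : ℕ} (hHX : HH X ≤ X) (hi : i < K)
    (hN : K * l + 1 + (i + 1) * l ≤ N) (hPM : ∀ r ∈ PX X, ¬ r ∣ M)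
    (hpX : ∀ r : ℕ, r.Prime → r ≤ X → ¬ r ∣ p) (hpb : p ≡ b + 1 [MOD Wm X])
    (hb' : ∀ r : ℕ, r.Prime → r ∣ Wm X →
      (r ∣ M → b' + (K * l + 1) ≡ 1 [MOD r]) ∧
      (¬ r ∣ M → (b' + (K * l + 1)) * (b + 1) ≡ M [MOD r]))
    (hB : ∀ a ∈ BT X b' N l K i, ¬ Rf X (tw X M (K * l + 1) p + a)) : G X M l p i := by
  have e0 : (i + 1) * l ≤ K * l := Nat.mul_le_mul_right _ hi
  intro h h1 h2 hMh
  have rough : ∀ a ∈ BT X b' N l K i, ∃ r : ℕ, r.Prime ∧ r ≤ X ∧ ¬ r ∣ M ∧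
      r ∣ tw X M (K * l + 1) p + a := by
    intro a ha
    have h3 := hB a ha
    unfold Rf at h3
    push Not at h3
    obtain ⟨r, hr1, hr2, hr3, hr4⟩ := h3
    refine ⟨r, hr1, hr3, hPM r ?_, hr4⟩
    rw [PX, mem_filter, mem_range]
    exact ⟨by omega, hr1, hr2⟩
  have small : ∀ a : ℕ, ¬ (b' + a).Coprime (Wm X) →
      ∃ r : ℕ, r.Prime ∧ r ∣ Wm X ∧ r ≤ X ∧ r ∣ b' + a := by
    intro a ha
    obtain ⟨r, hr, hrd⟩ := Nat.exists_prime_and_dvd (show Nat.gcd (b' + a) (Wm X) ≠ 1 from ha)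
    have h4 : r ∣ Wm X := hrd.trans (Nat.gcd_dvd_right _ _)
    refine ⟨r, hr, h4, ?_, hrd.trans (Nat.gcd_dvd_left _ _)⟩
    have h5 : r ≤ HH X := by
      unfold Wm at h4
      exact (Nat.Prime.dvd_primorial_iff hr).1 h4
    omega
  constructor
  · by_cases hc : (b' + (K * l + 1 + h)).Coprime (Wm X)
    · obtain ⟨r, hr1, hr2, hr3, hr4⟩ := rough (K * l + 1 + h)
        ((mem_BT hi).2 ⟨mem_BB.2 ⟨by omega, by omega, hc⟩, h, h1, h2, Or.inl rfl⟩)
      exact ⟨r, hr1, hr2, hr3, (tw_pos hr1 hr2 (hpX r hr1 hr2)).1 hr4⟩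
    · obtain ⟨r, hr, hrW, hrX, hrd⟩ := small _ hc
      have hrM : ¬ r ∣ M := by
        intro hrM
        have h5 := (hb' r hr hrW).1 hrM
        have h6 : b' + (K * l + 1) + h ≡ 1 + 0 [MOD r] :=
          h5.add ((Nat.modEq_zero_iff_dvd).2 (hMh r hr hrM))
        have h7 : b' + (K * l + 1) + h ≡ 0 [MOD r] := (Nat.modEq_zero_iff_dvd).2 (by
          rwa [add_assoc])
        have h8 : 1 ≡ 0 [MOD r] := h6.symm.trans h7
        exact hr.one_lt.ne' (Nat.dvd_one.1 ((Nat.modEq_zero_iff_dvd).1 h8))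
      refine ⟨r, hr, hrX, hrM, ?_⟩
      have h5 := (hb' r hr hrW).2 hrM
      have h6 : p ≡ b + 1 [MOD r] := hpb.of_dvd hrW
      have h7 : M + h * p ≡ (b' + (K * l + 1 + h)) * (b + 1) [MOD r] := by
        calc M + h * p ≡ (b' + (K * l + 1)) * (b + 1) + h * (b + 1) [MOD r] :=
              h5.symm.add (h6.mul_left h)
          _ = (b' + (K * l + 1 + h)) * (b + 1) := by ring
      exact (h7.dvd_iff (dvd_refl r)).2 (hrd.mul_right _)
  · by_cases hc : (b' + (K * l + 1 - h)).Coprime (Wm X)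
    · obtain ⟨r, hr1, hr2, hr3, hr4⟩ := rough (K * l + 1 - h)
        ((mem_BT hi).2 ⟨mem_BB.2 ⟨by omega, by omega, hc⟩, h, h1, h2, Or.inr rfl⟩)
      exact ⟨r, hr1, hr2, hr3, (tw_neg hr1 hr2 (hpX r hr1 hr2) (by omega)).1 hr4⟩
    · obtain ⟨r, hr, hrW, hrX, hrd⟩ := small _ hc
      have h4 : b' + (K * l + 1 - h) + h = b' + (K * l + 1) := by omega
      have h4' : b' + (K * l + 1) ≡ h [MOD r] := by
        rw [← h4]
        have : b' + (K * l + 1 - h) ≡ 0 [MOD r] := (Nat.modEq_zero_iff_dvd).2 hrd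
        simpa using this.add_right h
      have hrM : ¬ r ∣ M := by
        intro hrM
        have h5 := (hb' r hr hrW).1 hrM
        have h6 : h ≡ 0 [MOD r] := (Nat.modEq_zero_iff_dvd).2 (hMh r hr hrM)
        have h8 : 1 ≡ 0 [MOD r] := h5.symm.trans (h4'.trans h6)
        exact hr.one_lt.ne' (Nat.dvd_one.1 ((Nat.modEq_zero_iff_dvd).1 h8))
      refine ⟨r, hr, hrX, hrM, ?_⟩
      have h5 := (hb' r hr hrW).2 hrM
      have h6 : p ≡ b + 1 [MOD r] := hpb.of_dvd hrW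
      calc h * p ≡ (b' + (K * l + 1)) * (b + 1) [MOD r] := h4'.symm.mul h6
        _ ≡ M [MOD r] := h5

end Pool.Agent.R502.TW
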