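import Pool.Agent.R502.TW.Main

/-!
Multiples of primes: the counting theorem.
-/

set_option autoImplicit false

open Finset Filter Topology

namespace Pool.Agent.R502.TW

open Pool.Agent.H361R2.PP
open Pool.Agent.R526.AA
open Pool.Agent.R502.AQ

open Classical in
/-- for a proportion of the primes `p` one of `k` blocks is good -/
theorem basicTw (μ ε : ℝ) (hμ : 0 < μ) (hε : 0 < ε) (hε1 : ε ≤ 1) :
    ∃ C : ℝ, 0 < C ∧ ∀ k : ℕ, 0 < k → ∀ K M : ℕ, 0 < M → ∃ X₀ : ℕ, ∀ X : ℕ, X₀ ≤ X →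
      ∀ l s : ℕ, (l : ℝ) ≤ μ * Real.log X → s + k ≤ K →
      (1 - ε / 4) ^ 2 / (1 + ε / 8 + C / k) * Pr X ≤
        (((SQ X).filter (fun n => ∃ i < k, G X M l (n + 1) (s + i))).card : ℝ) := by
  obtain ⟨Kq, Aq, C, hC, hA'⟩ := almost3 (4 * μ) ε 4 (by linarith) hε hε1 (by norm_num)
  refine ⟨C, hC, fun k hk K M hM0 => ?_⟩
  have hA := hA' k hk
  obtain ⟨Λ, hΛd⟩ : ∃ Λ : ℝ, Λ = 2 * K * μ + μ + 1 := ⟨_, rfl⟩
  have hΛ : 0 < Λ := by rw [hΛd]; positivity
  obtain ⟨X1, hX1⟩ := hA Λ hΛ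
  obtain ⟨X2, hX2⟩ := Pool.Agent.H96R2.EQP.eqPrime Kq Aq (1 / 32) Λ (by norm_num) hΛ
  obtain ⟨X3, hX3⟩ := Bk_card μ hμ Λ hΛ
  obtain ⟨X4, hX4⟩ := Pool.Agent.H325R2.pnt (1 / 2) (by norm_num)
  obtain ⟨X5, hX5⟩ := HH_large M
  have e2 := Pool.Agent.H862R2.PPSm5.logs_small Λ
  obtain ⟨X6, hX6⟩ := Filter.eventually_atTop.1 e2
  refine ⟨X1 + X2 + X3 + X4 + X5 + X6 + 16 + M, fun X hX l s hl hsk => ?_⟩
  obtain ⟨η, hη⟩ : ∃ η : ℝ, η = (1 - ε / 4) ^ 2 / (1 + ε / 8 + C / k) := ⟨_, rfl⟩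
  rw [← hη]
  rw [← hη] at hX1
  have hW := Wm_pos X
  have hWr : (0 : ℝ) < Wm X := by exact_mod_cast hW
  have hφ : (0 : ℝ) < Nat.totient (Wm X) := by exact_mod_cast Nat.totient_pos.2 hW
  have hX16 : (16 : ℝ) ≤ X := by exact_mod_cast (by omega : 16 ≤ X)
  have hXr : (0 : ℝ) < X := by linarith
  have hL : 1 ≤ Real.log X := by
    rw [Real.le_log_iff_exp_le hXr]
    have := Real.exp_one_lt_d9
    linarith
  have hHX : HH X < X := HH_lt (by omega)
  have hPr : 0 < Pr X := by
    have h1 := (abs_le.1 (hX4 X (by omega))).1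
    by_contra h
    push Not at h
    nlinarith
  have hMH : M ≤ HH X := hX5 X (by omega)
  have hPM : ∀ r ∈ PX X, ¬ r ∣ M := by
    intro r hr hd
    rw [PX, mem_filter] at hr
    have := Nat.le_of_dvd hM0 hd
    omega
  have hK0 : (0 : ℝ) ≤ K := Nat.cast_nonneg _
  have hKl : (K : ℝ) * l ≤ K * (μ * Real.log X) := mul_le_mul_of_nonneg_left hl hK0
  have hμL : 0 ≤ μ * Real.log X := by positivity
  have hcen : ((K * l + 1 : ℕ) : ℝ) ≤ Λ * Real.log X := by
    push_cast
    rw [hΛd]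
    nlinarith
  have hcenX : K * l + 1 ≤ X := by
    have h1 := hX6 X (by omega)
    have h2 : ((K * l + 1 : ℕ) : ℝ) ≤ X := hcen.trans h1
    exact_mod_cast h2
  have hN : ∀ i < K, K * l + 1 + (i + 1) * l ≤ ⌊Λ * Real.log X⌋₊ := by
    intro i hi
    apply Nat.le_floor
    have h1 : (i + 1) * l ≤ K * l := Nat.mul_le_mul_right _ hi
    have h2 : ((K * l + 1 + (i + 1) * l : ℕ) : ℝ) ≤ ((K * l + 1 + K * l : ℕ) : ℝ) := by
      exact_mod_cast Nat.add_le_add_left h1 _
    refine h2.trans ?_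
    push_cast
    rw [hΛd]
    nlinarith
  -- one class
  have hcls : ∀ b ∈ (range (Wm X)).filter (fun b => (b + 1).Coprime (Wm X)),
      η * (Pr X / Nat.totient (Wm X)) ≤
      (((SP X b 1).filter (fun n => ∃ i < k, G X M l (n + 1) (s + i))).card : ℝ) := by
    intro b hb
    rw [mem_filter, mem_range] at hb
    have h1BB : 1 ∈ BB X b ⌊Λ * Real.log X⌋₊ := by
      rw [mem_BB]
      refine ⟨le_rfl, ?_, hb.2⟩
      have := hN s (by omega)
      omega
    obtain ⟨Er, hEq, hEs⟩ := hX2 X (by omega) b hb.1 1 h1BB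
    obtain ⟨b', hb'⟩ := exists_class X M b (K * l + 1) hM0 hHX.le hb.2
    have hinj : Function.Injective (fun n : ℕ => tw X M (K * l + 1) (n + 1)) := by
      intro x y hxy
      have := tw_inj (X := X) (M := M) (a₀ := K * l + 1) (by omega) hM0 hxy
      omega
    have h1 := hX1 X (by omega) b' (some (K * l + 1))
      ((SP X b 1).image (fun n => tw X M (K * l + 1) (n + 1)))
      (Pr X / Nat.totient (Wm X)) Er
      (tw_Sz (by omega) hM0 (by omega) hcenX b) (by positivity)
      (tw_Eqd (by omega) hM0 (by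
        intro r hr
        rw [mem_filter] at hr
        have h2 := hPM r hr.1
        rw [PX, mem_filter, mem_range] at hr
        exact ⟨hr.1.2.1, by omega, h2⟩) hEq) hEs
      (fun i => BT X b' ⌊Λ * Real.log X⌋₊ l K (s + i))
      (fun i => union_subset (Bk_sub _ _ _ _ _ _) (Bk_sub _ _ _ _ _ _))
      (by
        intro i
        have hiK : s + (i : ℕ) < K := by have := i.2; omega
        have h2 := hX3 X (by omega) b' 0 l (K - 1 - (s + i)) hl (by
          have h3 : ((K - 1 - (s + i) : ℕ) : ℝ) ≤ K := by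
            exact_mod_cast (by omega : K - 1 - (s + (i : ℕ)) ≤ K)
          have h4 : ((K - 1 - (s + i) : ℕ) : ℝ) * l ≤ K * l :=
            mul_le_mul_of_nonneg_right h3 (Nat.cast_nonneg _)
          push_cast
          rw [hΛd]
          nlinarith)
        have h3 := hX3 X (by omega) b' (K * l + 1) l (s + i) hl (by
          have h3 : ((s + i : ℕ) : ℝ) ≤ K := by
            exact_mod_cast hiK.le
          have h4 : ((s + i : ℕ) : ℝ) * l ≤ K * l :=
            mul_le_mul_of_nonneg_right h3 (Nat.cast_nonneg _)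
          have h5 : ((K * l + 1 : ℕ) : ℝ) = K * l + 1 := by push_cast; ring
          rw [h5, hΛd]
          nlinarith)
        have h4 : ((BT X b' ⌊Λ * Real.log X⌋₊ l K (s + i)).card : ℝ) ≤
            ((Bk X b' ⌊Λ * Real.log X⌋₊ 0 l (K - 1 - (s + i))).card : ℝ) +
            ((Bk X b' ⌊Λ * Real.log X⌋₊ (K * l + 1) l (s + i)).card : ℝ) := by
          exact_mod_cast card_union_le _ _
        linarith)
      (fun i j hij => BT_disj (by have := i.2; omega) (by have := j.2; omega)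
        (fun h => hij (Fin.ext (by omega))))
      (by
        intro a ha
        rw [Option.mem_def, Option.some.injEq] at ha
        subst ha
        refine ⟨by omega, hcen, ?_⟩
        intro i hi
        have hiK : s + (i : ℕ) < K := by have := i.2; omega
        rw [mem_BT hiK] at hi
        obtain ⟨-, h, h2, h3, h4⟩ := hi
        have h5 : (s + (i : ℕ) + 1) * l ≤ K * l := Nat.mul_le_mul_right _ hiK
        omega)
    refine h1.trans ?_
    rw [filter_image, card_image_of_injective _ hinj]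
    apply Nat.cast_le.2
    apply card_le_card
    intro n hn
    rw [mem_filter] at hn ⊢
    refine ⟨hn.1, ?_⟩
    obtain ⟨i, hi⟩ := hn.2
    refine ⟨i, i.2, ?_⟩
    have hiK : s + (i : ℕ) < K := by have := i.2; omega
    have hnS := mem_SP.1 hn.1
    have hp := hnS.2.2.2
    refine G_of (b := b) (b' := b') (N := ⌊Λ * Real.log X⌋₊) hHX.le hiK (hN _ hiK) hPM ?_ ?_ hb' hi
    · intro r hr hrX hd
      have := (Nat.prime_dvd_prime_iff_eq hr hp).1 hd
      omega
    · have h2 : n ≡ b [MOD Wm X] := by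
        rw [← hnS.2.2.1]
        exact (Nat.mod_modEq n (Wm X)).symm
      exact h2.add_right 1
  -- sum over the classes
  rw [SQ_classes hHX]
  push_cast
  calc η * Pr X = ∑ b ∈ (range (Wm X)).filter (fun b => (b + 1).Coprime (Wm X)),
        η * (Pr X / Nat.totient (Wm X)) := by
        rw [sum_const, card_adm, nsmul_eq_mul]
        field_simp
    _ ≤ _ := sum_le_sum hcls

end Pool.Agent.R502.TW
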